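import Mathlib

/-!
# A multiple root of a digit-sum Hankel determinant polynomial outside `0` and `2ζ`

`(t + 1) ^ 2` divides the Hankel determinant of order `55` of the weighted binary digit sums. The matrix at
`t = -1` has an integral kernel vector `v`, and `vᵀ H'(-1) v = 0`.
-/

set_option autoImplicit false

namespace Pool.Agent.Results.MP_adc81a_nt.MinusOneDoubleRoot

open Polynomial

/-- The weighted binary digit sum `S(n, t) = ∑ ε_j t ^ j`, where `n = ∑ ε_j 2 ^ j`, `ε_j ∈ {0, 1}`. -/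
noncomputable def S (n : ℕ) : ℤ[X] :=
  ∑ j ∈ Finset.range n.size, if n.testBit j then X ^ j else 0

/-- The Hankel matrix `[S(i + j, t)]`, `0 ≤ i, j < n`. -/
noncomputable def H (n : ℕ) : Matrix (Fin n) (Fin n) ℤ[X] :=
  Matrix.of fun i j => S (i.val + j.val)

/-- The value of `S(n, t)` at `t = -1`. -/
def s0 (n : ℕ) : ℤ := ∑ j ∈ Finset.range n.size, if n.testBit j then (-1) ^ j else 0

/-- The value of the derivative of `S(n, t)` at `t = -1`. -/
def s1 (n : ℕ) : ℤ := ∑ j ∈ Finset.range n.size, if n.testBit j then (j : ℤ) * (-1) ^ (j - 1) else 0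

theorem eval_S (n : ℕ) : (S n).eval (-1) = s0 n := by
  unfold S s0
  rw [eval_finsetSum]
  refine Finset.sum_congr rfl fun j _ => ?_
  split_ifs <;> simp

theorem eval_der_S (n : ℕ) : (derivative (S n)).eval (-1) = s1 n := by
  unfold S s1
  rw [derivative_sum, eval_finsetSum]
  refine Finset.sum_congr rfl fun j _ => ?_
  split_ifs <;> simp [derivative_X_pow]

/-- The kernel vector of the Hankel matrix of order `55` at `t = -1`. -/
def vl : List ℤ := [-3, 2, 1, 0, -1, 1, 1, 0, 0, 0, 0, 0, 0, 0, 0, 0, -3, 2, 1, 0, -1, 1, 1, 0, 0, 0, 0,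
  0, 0, 0, 0, 0, 8, -5, -2, 0, 2, -2, -2, 0, 2, -1, 0, 0, 0, 0, 0, 0, -3, 2, 1, 0, -1, 1, 1]

def v (i : Fin 55) : ℤ := vl.getD i.val 0

theorem kernel : ∀ i : Fin 55, ∑ j : Fin 55, v j * s0 (i.val + j.val) = 0 := by
  decide +kernel

theorem quad : ∑ i : Fin 55, ∑ j : Fin 55, v i * (v j * s1 (i.val + j.val)) = 0 := by
  decide +kernel

theorem dvd_of_eval {p : ℤ[X]} (h : p.eval (-1) = 0) : (X + 1 : ℤ[X]) ∣ p := by
  have h1 : X - C (-1 : ℤ) ∣ p := dvd_iff_isRoot.2 h
  simpa using h1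

/-- If `H(n + 1, -1) v = 0`, `vᵀ H'(n + 1, -1) v = 0` and the last entry of `v` is `1`, then `(t + 1) ^ 2` divides the
determinant. -/
theorem det_dvd (n : ℕ) (v : Fin (n + 1) → ℤ) (hvl : v (Fin.last n) = 1)
    (kernel : ∀ i : Fin (n + 1), ∑ j : Fin (n + 1), v j * s0 (i.val + j.val) = 0)
    (quad : ∑ i : Fin (n + 1), ∑ j : Fin (n + 1), v i * (v j * s1 (i.val + j.val)) = 0) :
    (X + 1 : ℤ[X]) ^ 2 ∣ (H (n + 1)).det := by
  let w (i : Fin (n + 1)) : ℤ[X] := ∑ j : Fin (n + 1), C (v j) * S (i.val + j.val)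
  have w_dvd : ∀ i, (X + 1 : ℤ[X]) ∣ w i := by
    intro i
    apply dvd_of_eval
    simp only [w]
    rw [eval_finsetSum, ← kernel i]
    refine Finset.sum_congr rfl fun j _ => ?_
    rw [eval_mul, eval_C, eval_S]
  choose c hc using w_dvd
  -- the values of `c` at `-1`
  have hc1 : ∀ i, (c i).eval (-1) = ∑ j : Fin (n + 1), v j * s1 (i.val + j.val) := by
    intro i
    have h1 : (derivative (w i)).eval (-1) = (c i).eval (-1) := by
      rw [hc i, derivative_mul]
      simp
    rw [← h1]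
    simp only [w]
    rw [derivative_sum, eval_finsetSum]
    refine Finset.sum_congr rfl fun j _ => ?_
    rw [derivative_mul, derivative_C, zero_mul, zero_add, eval_mul, eval_C, eval_der_S]
  have hq : (X + 1 : ℤ[X]) ∣ ∑ i : Fin (n + 1), C (v i) * c i := by
    apply dvd_of_eval
    rw [eval_finsetSum, ← quad]
    refine Finset.sum_congr rfl fun i _ => ?_
    rw [eval_mul, eval_C, hc1, Finset.mul_sum]
  obtain ⟨e, he⟩ := hq
  -- replace the last column
  set B : Matrix (Fin (n + 1)) (Fin (n + 1)) ℤ[X] := (H (n + 1)).updateCol (Fin.last n) c with hB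
  have h1 : (H (n + 1)).det = (X + 1) * B.det := by
    have h2 := Matrix.det_updateCol_sum (H (n + 1)) (Fin.last n) (fun j => C (v j))
    rw [hvl, map_one, one_smul] at h2
    rw [← h2]
    have h3 : (fun k => ∑ i, (fun j => C (v j)) i • (H (n + 1)) k i) = (X + 1 : ℤ[X]) • c := by
      funext k
      rw [Pi.smul_apply, smul_eq_mul, ← hc k]
      simp only [w]
      refine Finset.sum_congr rfl fun j _ => ?_
      simp [H]
    rw [h3, Matrix.det_updateCol_smul]
  have h4 : ∃ d : ℤ[X], B.det = (X + 1) * d := by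
    have h2 := Matrix.det_updateRow_sum B (Fin.last n) (fun j => C (v j))
    rw [hvl, map_one, one_smul] at h2
    rw [← h2]
    have h3 : (∑ i, (fun j => C (v j)) i • B i) =
        (X + 1 : ℤ[X]) • (fun j : Fin (n + 1) => if j = Fin.last n then e else c j) := by
      funext j
      rw [Finset.sum_apply, Pi.smul_apply, smul_eq_mul]
      by_cases hj : j = Fin.last n
      · subst hj
        rw [if_pos rfl, ← he]
        refine Finset.sum_congr rfl fun i _ => ?_
        simp [hB]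
      · rw [if_neg hj, ← hc j]
        simp only [w]
        refine Finset.sum_congr rfl fun i _ => ?_
        rw [Pi.smul_apply, smul_eq_mul, hB, Matrix.updateCol_ne hj]
        simp [H, add_comm]
    rw [h3, Matrix.det_updateRow_smul]
    exact ⟨_, rfl⟩
  obtain ⟨d, hd⟩ := h4
  rw [h1, hd]
  exact ⟨d, by ring⟩

/-- There are `n ≥ 2` (namely `n = 55`) and a complex number `t₀` (namely `t₀ = -1`), not `0` and not of the form
`2ζ` with a root of unity `ζ`, which is a multiple root of the polynomial `det [S(i + j, t)]`, `0 ≤ i, j < n`. -/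
theorem result : ∃ n : ℕ, 2 ≤ n ∧ ∃ t₀ : ℂ, t₀ ≠ 0 ∧
    (∀ ζ : ℂ, (∃ m : ℕ, 1 ≤ m ∧ ζ ^ m = 1) → t₀ ≠ 2 * ζ) ∧
    (X - C t₀) ^ 2 ∣ ((H n).det).map (Int.castRingHom ℂ) := by
  refine ⟨55, by norm_num, -1, by norm_num, ?_, ?_⟩
  · rintro ζ ⟨m, hm, hζ⟩ h
    have h1 : ‖ζ‖ = 1 := Complex.norm_eq_one_of_pow_eq_one hζ (by omega)
    have h2 : ‖(-1 : ℂ)‖ = ‖2 * ζ‖ := by rw [← h]
    rw [norm_mul, h1] at h2
    norm_num at h2
  · obtain ⟨d, hd⟩ := det_dvd 54 v (by decide +kernel) kernel quad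
    refine ⟨d.map (Int.castRingHom ℂ), ?_⟩
    rw [hd, Polynomial.map_mul, Polynomial.map_pow, Polynomial.map_add, Polynomial.map_X, Polynomial.map_one]
    simp

end Pool.Agent.Results.MP_adc81a_nt.MinusOneDoubleRoot
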